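import Pool.Agent.Helper58.DM.Goals

/-!
Packet K_KC (project DM, MP_06d934_gt): the parameters of the Kähler metrics.
-/

set_option autoImplicit false

namespace Pool.Agent.Helper14.DM

open Matrix Pool.Agent.Helper58.DH Pool.Agent.Helper58.DM

/-- The numbers `z` on the blocks. -/
def zz (h l : ℝ) : Fin 5 → ℝ := ![h, -h, l, -l, 0]

theorem cls_none (a b : Fin 5) : cls a b = none ↔ a = b := by
  revert a b
  decide

theorem abs_zz (h l : ℝ) (a b : Fin 5) (c : Fin 6) (hc : cls a b = some c) :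
    |zz h l a - zz h l b| = (![|h - l|, |h + l|, 2 * |h|, 2 * |l|, |h|, |l|] : Fin 6 → ℝ) c := by
  have e1 : |(-h) - (-l)| = |h - l| := by rw [← abs_neg]; congr 1; ring
  have e2 : |l - h| = |h - l| := abs_sub_comm _ _
  have e3 : |(-l) - (-h)| = |h - l| := by congr 1; ring
  have e4 : |h - (-l)| = |h + l| := by congr 1; ring
  have e5 : |(-l) - h| = |h + l| := by rw [← abs_neg]; congr 1; ring
  have e6 : |(-h) - l| = |h + l| := by rw [← abs_neg]; congr 1; ring
  have e7 : |l - (-h)| = |h + l| := by congr 1; ring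
  have e8 : ∀ x : ℝ, |x - (-x)| = 2 * |x| := fun x => by
    rw [show x - (-x) = 2 * x by ring, abs_mul, abs_of_pos (by norm_num : (0 : ℝ) < 2)]
  have e9 : ∀ x : ℝ, |(-x) - x| = 2 * |x| := fun x => by
    rw [show (-x) - x = -(2 * x) by ring, abs_neg, abs_mul, abs_of_pos (by norm_num : (0 : ℝ) < 2)]
  have e10 : ∀ x : ℝ, |x - 0| = |x| := fun x => by rw [sub_zero]
  have e11 : ∀ x : ℝ, |(-x) - 0| = |x| := fun x => by rw [sub_zero, abs_neg]
  have e12 : ∀ x : ℝ, |0 - x| = |x| := fun x => by rw [zero_sub, abs_neg]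
  have e13 : ∀ x : ℝ, |0 - (-x)| = |x| := fun x => by rw [zero_sub, neg_neg]
  fin_cases a <;> fin_cases b <;> simp [cls] at hc <;> subst hc <;> simp [zz] <;> grind

section

variable {I : Type} [Fintype I] [DecidableEq I] (F : Frame I)

theorem comp_apply (c : Fin 6) (X : Matrix I I ℂ) (i j : I) :
    comp F c X i j = if cls (F.bl i) (F.bl j) = some c then X i j else 0 := rfl

theorem prm_apply (X : Matrix I I ℂ) (i j : I) :
    prm F X i j = if F.bl i = F.bl j then 0 else X i j := rfl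

theorem comp_add (c : Fin 6) (X Y : Matrix I I ℂ) : comp F c (X + Y) = comp F c X + comp F c Y := by
  ext i j
  rw [Matrix.add_apply, comp_apply, comp_apply, comp_apply]
  split_ifs
  · rfl
  · rw [add_zero]

theorem comp_smul (c : Fin 6) (r : ℝ) (X : Matrix I I ℂ) : comp F c (r • X) = r • comp F c X := by
  ext i j
  rw [Matrix.smul_apply, comp_apply, comp_apply]
  split_ifs
  · rfl
  · rw [smul_zero]

theorem prm_add (X Y : Matrix I I ℂ) : prm F (X + Y) = prm F X + prm F Y := by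
  ext i j
  rw [Matrix.add_apply, prm_apply, prm_apply, prm_apply]
  split_ifs
  · rw [add_zero]
  · rfl

theorem prm_smul (r : ℝ) (X : Matrix I I ℂ) : prm F (r • X) = r • prm F X := by
  ext i j
  rw [Matrix.smul_apply, prm_apply, prm_apply]
  split_ifs
  · rw [smul_zero]
  · rfl

theorem prm_off {X : Matrix I I ℂ} (hX : Off F X) : prm F X = X := by
  ext i j
  rw [prm_apply]
  split_ifs with h
  · exact (hX i j h).symm
  · rfl

/-- The entries of `∑_c w_c comp_c X`. -/
theorem sum_comp_apply (w : Fin 6 → ℝ) (X : Matrix I I ℂ) (i j : I) (c : Fin 6)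
    (hc : cls (F.bl i) (F.bl j) = some c) : (∑ d, w d • comp F d X) i j = (w c : ℂ) * X i j := by
  rw [Matrix.sum_apply, Finset.sum_eq_single c]
  · rw [Matrix.smul_apply, comp_apply, if_pos hc, Complex.real_smul]
  · intro d _ hd
    rw [Matrix.smul_apply, comp_apply, if_neg, smul_zero]
    rw [hc]
    intro h
    exact hd (Option.some.inj h).symm
  · intro h
    exact absurd (Finset.mem_univ c) h

theorem Zd_bracket (h l : ℝ) (X : Matrix I I ℂ) (i j : I) :
    (⁅Zd F h l, X⁆ : Matrix I I ℂ) i j =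
      Complex.I * ((zz h l (F.bl i) - zz h l (F.bl j) : ℝ) : ℂ) * X i j := by
  rw [Ring.lie_def, Matrix.sub_apply]
  unfold Zd
  rw [Matrix.diagonal_mul, Matrix.mul_diagonal]
  unfold zz
  push_cast
  ring

/-- `𝔤` as a subspace. -/
def LL' : Submodule ℝ (Matrix I I ℂ) where
  carrier := fg F
  add_mem' := by
    rintro X Y ⟨h1, h2⟩ ⟨h3, h4⟩
    refine ⟨?_, ?_⟩
    · rw [Matrix.conjTranspose_add, h1, h3, neg_add]
    · rw [Matrix.transpose_add, Matrix.add_mul, Matrix.mul_add]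
      calc _ = (Xᵀ * SS F + SS F * X) + (Yᵀ * SS F + SS F * Y) := by abel
        _ = 0 := by rw [h2, h4, add_zero]
  zero_mem' := by
    refine ⟨?_, ?_⟩
    · rw [Matrix.conjTranspose_zero, neg_zero]
    · rw [Matrix.transpose_zero, Matrix.zero_mul, Matrix.mul_zero, add_zero]
  smul_mem' := by
    rintro r X ⟨h1, h2⟩
    refine ⟨?_, ?_⟩
    · rw [Matrix.conjTranspose_smul, h1, smul_neg, star_trivial]
    · rw [Matrix.transpose_smul, Matrix.smul_mul, Matrix.mul_smul, ← smul_add, h2, smul_zero]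

theorem mem_LL' (X : Matrix I I ℂ) : X ∈ LL' F ↔ X ∈ fg F := Iff.rfl

/-- An entry of a nonzero element of `𝔪_c`. -/
theorem full_entry {c : Fin 6} {X : Matrix I I ℂ} (h1 : comp F c X = X) (h2 : X ≠ 0) :
    ∃ i j, X i j ≠ 0 ∧ cls (F.bl i) (F.bl j) = some c := by
  by_contra hne
  push Not at hne
  apply h2
  ext i j
  rw [Matrix.zero_apply]
  by_contra h
  have h3 := hne i j h
  rw [← h1, comp_apply, if_neg h3] at h
  exact h rfl

end

/-- PACKET K_KC. -/
theorem k_kc (hENT : Pool.Agent.Helper58.DM.M_ENT) (hINN : Pool.Agent.Helper58.DM.K_INN)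
    (hCEN : Pool.Agent.Helper58.DM.K_CEN) (hDER : Pool.Agent.Helper58.DM.K_DER) :
    Pool.Agent.Helper58.DM.K_KC := by
  intro I _ _ F w hk hG hF hw hK
  obtain ⟨J, hJ, hherm, hclosed⟩ := hK
  obtain ⟨he1, he2, -, -, -, he6⟩ := hENT I F hk
  obtain ⟨hD1, hD2, hD3⟩ := hDER I F w J hk hJ hherm hclosed
  set D : Matrix I I ℂ → Matrix I I ℂ := fun X ↦ ∑ c, w c • comp F c (J (prm F X)) with hDdef
  have hskew : ∀ X ∈ LL' F, Xᴴ = -X := fun X hX => ((he1 X).1 hX).1
  have hbr : ∀ X ∈ LL' F, ∀ Y ∈ LL' F, ⁅X, Y⁆ ∈ LL' F := fun X hX Y hY =>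
    (he1 _).2 (he6 X Y ((he1 X).1 hX) ((he1 Y).1 hY))
  have hmg : ∀ X ∈ fm F, X ∈ fg F := fun X hX => hX.1
  have hoff : ∀ X ∈ fm F, Off F X := fun X hX => ((he2 X).1 hX).2
  have hkg : ∀ X ∈ fk F, X ∈ fg F := fun X hX => hX.1
  -- the centre is trivial
  have hcen : ∀ Z ∈ LL' F, (∀ X ∈ LL' F, ⁅Z, X⁆ = 0) → Z = 0 := by
    intro Z hZ hZX
    obtain ⟨h, l, rfl⟩ := hCEN I F hk hG Z hZ fun X hX => hZX X (hkg X hX)
    have key : ∀ c, ∃ i j, cls (F.bl i) (F.bl j) = some c ∧ |zz h l (F.bl i) - zz h l (F.bl j)| = 0 := by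
      intro c
      obtain ⟨X, hX1, hX2, hX3⟩ := hF c
      obtain ⟨i, j, h1, h2⟩ := full_entry F hX2 hX3
      refine ⟨i, j, h2, ?_⟩
      have h3 := congrFun (congrFun (hZX X (hmg X hX1)) i) j
      rw [Zd_bracket, Matrix.zero_apply] at h3
      have h4 := (mul_eq_zero.1 h3).resolve_right h1
      have h5 := (mul_eq_zero.1 h4).resolve_left Complex.I_ne_zero
      rw [abs_eq_zero]
      exact_mod_cast h5
    have h4 : |h| = 0 := by
      obtain ⟨i, j, h1, h2⟩ := key 4
      rw [abs_zz h l _ _ _ h1] at h2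
      simpa using h2
    have h5 : |l| = 0 := by
      obtain ⟨i, j, h1, h2⟩ := key 5
      rw [abs_zz h l _ _ _ h1] at h2
      simpa using h2
    rw [abs_eq_zero] at h4 h5
    subst h4 h5
    unfold Zd
    ext i j
    rw [Matrix.diagonal_apply, Matrix.zero_apply]
    split_ifs
    · have : ∀ b : Fin 5, (![(0 : ℝ), -0, 0, -0, 0] : Fin 5 → ℝ) b = 0 := by
        intro b
        fin_cases b <;> simp
      rw [this]
      simp
    · rfl
  obtain ⟨Z, hZ, hZD⟩ := hINN I (LL' F) hskew hbr hcen D hD1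
    (fun X _ Y _ => by
      simp only [hDdef, prm_add, map_add, comp_add, smul_add, Finset.sum_add_distrib])
    (fun r X _ => by
      simp only [hDdef, prm_smul, map_smul, comp_smul, Finset.smul_sum]
      exact Finset.sum_congr rfl fun c _ => smul_comm _ _ _)
    hD3
  obtain ⟨h, l, rfl⟩ := hCEN I F hk hG Z hZ fun X hX => by
    rw [← hZD X (hkg X hX), hD2 X hX]
  refine ⟨h, l, ?_⟩
  funext c
  obtain ⟨X, hX1, hX2, hX3⟩ := hF c
  obtain ⟨i, j, h1, h2⟩ := full_entry F hX2 hX3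
  rw [← abs_zz h l _ _ _ h2]
  have hJX := hJ.mem X hX1
  have e1 := congrFun (congrFun (hZD X (hmg X hX1)) i) j
  have e2 := congrFun (congrFun (hZD (J X) (hmg _ hJX)) i) j
  rw [Zd_bracket] at e1 e2
  simp only [hDdef] at e1 e2
  rw [prm_off F (hoff X hX1), sum_comp_apply F w _ i j c h2] at e1
  rw [prm_off F (hoff _ hJX), hJ.sq X hX1, sum_comp_apply F w _ i j c h2, Matrix.neg_apply] at e2
  set a : ℝ := zz h l (F.bl i) - zz h l (F.bl j) with ha
  have e3 : ((w c : ℂ) ^ 2 - (a : ℂ) ^ 2) * X i j = 0 := by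
    have h3 : -((w c : ℂ) ^ 2 * X i j) = Complex.I * (a : ℂ) * (Complex.I * (a : ℂ) * X i j) := by
      rw [← e1]
      calc _ = (w c : ℂ) * ((w c : ℂ) * -X i j) := by ring
        _ = (w c : ℂ) * (Complex.I * (a : ℂ) * J X i j) := by rw [e2]
        _ = _ := by ring
    have h4 : Complex.I * (a : ℂ) * (Complex.I * (a : ℂ) * X i j) = -((a : ℂ) ^ 2 * X i j) := by
      calc _ = (Complex.I * Complex.I) * ((a : ℂ) ^ 2 * X i j) := by ring
        _ = _ := by rw [Complex.I_mul_I]; ring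
    rw [h4] at h3
    linear_combination -h3
  have e4 := (mul_eq_zero.1 e3).resolve_right h1
  have e5 : w c ^ 2 = a ^ 2 := by
    have : ((w c ^ 2 - a ^ 2 : ℝ) : ℂ) = 0 := by
      push_cast
      exact e4
    have h6 : w c ^ 2 - a ^ 2 = 0 := by exact_mod_cast this
    linarith
  rw [← abs_of_pos (hw c)]
  exact (sq_eq_sq_iff_abs_eq_abs _ _).1 e5

end Pool.Agent.Helper14.DM
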